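import Mathlib
import Pool.Agent.Helper272.Ell.Final

/-!
# Bodies with an algebraic power of the sectional volume

If `K ⊂ ℝⁿ` is a body with `C^∞` boundary and a fixed power `A_K(ξ,t)^m` of its sectional volume
function is a polynomial in `t` for every direction `ξ`, then `∂K` is an ellipsoid.
-/

set_option autoImplicit false
open Set Metric MeasureTheory Polynomial
open scoped ContDiff RealInnerProductSpace

namespace Pool.Agent.Results.MP_376fb4_gt.EllipsoidFromSections

/-- Euclidean space `ℝⁿ`. -/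
abbrev E (n : ℕ) : Type := EuclideanSpace ℝ (Fin n)

/-- The boundary of `K` is a `C^∞` hypersurface near `x`: in an open neighbourhood of `x` it is the
zero set of a `C^∞` function whose derivative at `x` is not zero. -/
def SmoothBoundaryAt {n : ℕ} (K : Set (E n)) (x : E n) : Prop :=
  ∃ U : Set (E n), IsOpen U ∧ x ∈ U ∧ ∃ f : E n → ℝ,
    ContDiffOn ℝ ∞ f U ∧ fderiv ℝ f x ≠ 0 ∧ frontier K ∩ U = {y ∈ U | f y = 0}

/-- `K ⊂ ℝⁿ` is a body with `C^∞` boundary: a nonempty compact set which is the closure of its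
interior and whose topological boundary is a `C^∞` hypersurface. -/
def SmoothBody {n : ℕ} (K : Set (E n)) : Prop :=
  IsCompact K ∧ K.Nonempty ∧ closure (interior K) = K ∧ ∀ x ∈ frontier K, SmoothBoundaryAt K x

/-- The orthogonal complement `ξ^⊥` of the line through `ξ`. -/
noncomputable def perp {n : ℕ} (ξ : E n) : Submodule ℝ (E n) := (ℝ ∙ ξ)ᗮ

/-- Volume (Lebesgue measure, as a real number) of a set in a finite-dimensional Euclidean space. -/
noncomputable def vol {F : Type} [NormedAddCommGroup F] [InnerProductSpace ℝ F]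
    [FiniteDimensional ℝ F] [MeasurableSpace F] [BorelSpace F] (S : Set F) : ℝ :=
  (volume S).toReal

/-- The section of `K` by the hyperplane `⟨x,ξ⟩ = t` (`ξ` a unit vector); the hyperplane is
identified isometrically with the orthogonal complement of `ξ` by `y ↦ t ξ + y`. -/
def hyperplaneSection {n : ℕ} (K : Set (E n)) (ξ : E n) (t : ℝ) : Set (perp ξ) :=
  {y | t • ξ + (y : E n) ∈ K}

/-- The sectional volume function `A_K(ξ,t)`, the `(n-1)`-dimensional volume of the section. -/
noncomputable def sectionVolume {n : ℕ} (K : Set (E n)) (ξ : E n) (t : ℝ) : ℝ :=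
  vol (hyperplaneSection K ξ t)

/-- `A_K(ξ,t)^m` is a polynomial in `t` on the set of all `t` for which the hyperplane
`⟨x,ξ⟩ = t` meets the interior of `K`. -/
def PowerIsPolynomial {n : ℕ} (K : Set (E n)) (m : ℕ) (ξ : E n) : Prop :=
  ∃ P : ℝ[X], ∀ t : ℝ, (∃ x ∈ interior K, ⟪x, ξ⟫ = t) → sectionVolume K ξ t ^ m = P.eval t

/-- The solid ellipsoid with centre `c` given by the invertible linear map `L`. -/
def solidEllipsoid {n : ℕ} (c : E n) (L : E n ≃L[ℝ] E n) : Set (E n) := {x | ‖L (x - c)‖ ≤ 1}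

/-- The ellipsoid (surface) with centre `c` given by the invertible linear map `L`. -/
def ellipsoid {n : ℕ} (c : E n) (L : E n ≃L[ℝ] E n) : Set (E n) := {x | ‖L (x - c)‖ = 1}

/-- If `A_K(ξ,·)^m` is a polynomial for every unit vector `ξ`, then `K` is a solid ellipsoid and
`∂K` an ellipsoid. -/
theorem result : ∀ (n : ℕ), 2 ≤ n → ∀ K : Set (E n), SmoothBody K → ∀ m : ℕ, 0 < m →
    (∀ ξ : E n, ‖ξ‖ = 1 → PowerIsPolynomial K m ξ) →
    ∃ (c : E n) (L : E n ≃L[ℝ] E n), K = solidEllipsoid c L ∧ frontier K = ellipsoid c L := by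
  intro n hn K hK m hm h
  exact AS.main hn K hK.1 hK.2.1 hK.2.2.1 hK.2.2.2 m hm h

end Pool.Agent.Results.MP_376fb4_gt.EllipsoidFromSections
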